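import Pool.Agent.N848.OL.Stm
import Pool.Agent.Y419.LC.PRD
import Pool.Agent.Y287.LC.CHB

/-!
Project OL (helper848), leaf INF: infinitely many nonsplit primes congruent to `1` modulo `p`
(by helper18).
-/

set_option autoImplicit false

namespace Pool.Agent.N18.OL

open Module NumberField Pool.Agent.Y419.LC

/-- powers of an automorphism, on the embeddings -/
theorem iter_eq {k : Type} [Field k] (g : Om ≃+* Om) (j : ℕ) (τ : k →+* Om) (x : k) :
    (⇑g)^[j] (τ x) = ((act k g ^ j) • τ) x := (act_pow g j τ x).symm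

/-- the iterates of `g` act transitively: the `n`-th power fixes every embedding -/
theorem mod_n {k : Type} [Field k] [NumberField k] (g : Om ≃+* Om)
    (hg : ∀ τ τ' : k →+* Om, ∃ j : ℕ, ∀ x : k, (⇑g)^[j] (τ x) = τ' x) (τ : k →+* Om) {a b : ℕ}
    (hab : a % finrank ℚ k = b % finrank ℚ k) : (act k g ^ a) • τ = (act k g ^ b) • τ := by
  classical
  have hcard : Fintype.card (k →+* Om) = finrank ℚ k := NumberField.Embeddings.card k Om
  have horb : MulAction.orbit (Subgroup.zpowers (act k g)) τ = Set.univ := by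
    refine Set.eq_univ_of_forall fun τ' => ?_
    obtain ⟨j, hj⟩ := hg τ τ'
    refine ⟨⟨act k g ^ j, Subgroup.npow_mem_zpowers _ j⟩, ?_⟩
    refine RingHom.ext fun x => ?_
    rw [← hj x, iter_eq]
    rfl
  have hper : Function.minimalPeriod (act k g • ·) τ = finrank ℚ k := by
    rw [MulAction.minimalPeriod_eq_card, ← hcard]
    exact Fintype.card_congr ((Equiv.setCongr horb).trans (Equiv.Set.univ _))
  have h1 := MulAction.pow_smul_mod_minimalPeriod (act k g) τ a
  have h2 := MulAction.pow_smul_mod_minimalPeriod (act k g) τ b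
  rw [hper] at h1 h2
  rw [← h1, ← h2, hab]

theorem iter_pow (g : Om ≃+* Om) (m j : ℕ) (x : Om) :
    (⇑(g ^ m))^[j] x = (⇑g)^[m * j] x := by
  have h : ⇑(g ^ m) = (⇑g)^[m] := by
    induction m with
    | zero => rfl
    | succ m ih =>
      rw [pow_succ', Function.iterate_succ', ← ih]
      rfl
  rw [h, Function.iterate_mul]

/-- roots of unity of order `p` -/
theorem root {p : ℕ} (hp : p.Prime) (g : Om ≃+* Om) (ζ : Om) (hζ : ζ ^ p = 1) :
    (⇑g)^[p - 1] ζ = ζ := by
  by_cases h1 : ζ = 1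
  · rw [h1]
    exact Function.iterate_fixed (map_one g) _
  have hne : NeZero p := ⟨hp.ne_zero⟩
  have hprim : IsPrimitiveRoot ζ p := by
    have := Fact.mk hp
    exact IsPrimitiveRoot.iff_orderOf.2 (orderOf_eq_prime hζ h1)
  have h2 : (g ζ) ^ p = 1 := by rw [← map_pow, hζ, map_one]
  obtain ⟨a, hap, ha⟩ := hprim.eq_pow_of_pow_eq_one h2
  have ha0 : a ≠ 0 := by
    intro h
    rw [h, pow_zero] at ha
    apply h1
    apply g.injective
    rw [← ha, map_one]
  have h3 : ∀ m : ℕ, (⇑g)^[m] ζ = ζ ^ (a ^ m) := by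
    intro m
    induction m with
    | zero => simp
    | succ m ih =>
      rw [Function.iterate_succ_apply', ih, map_pow, ← ha, ← pow_mul]
      congr 1
      ring
  rw [h3]
  have hcop : Nat.Coprime a p := by
    rw [Nat.coprime_comm, Nat.Prime.coprime_iff_not_dvd hp]
    intro hd
    exact absurd (Nat.le_of_dvd (Nat.pos_of_ne_zero ha0) hd) (by omega)
  have h4 : a ^ (p - 1) ≡ 1 [MOD p] := by
    have := Nat.ModEq.pow_totient hcop
    rwa [Nat.totient_prime hp] at this
  have h5 : a ^ (p - 1) % p = 1 := by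
    have h6 := h4
    unfold Nat.ModEq at h6
    rw [h6, Nat.mod_eq_of_lt hp.one_lt]
  rw [pow_eq_pow_mod _ hζ, h5, pow_one]

/-- **infinitely many nonsplit primes congruent to `1` modulo `p`**, from the library theorems -/
theorem inf_of (hP : Pool.Agent.Y18.LC.PRD) (hC : Pool.Agent.Y18.LC.CHB) :
    Pool.Agent.N848.OL.S_INF := by
  intro p hp k _ _ hn hnp
  have hpp : p.Prime := hp.out
  obtain ⟨g, hg⟩ := hP k hn
  refine hC k p hpp (g ^ (p - 1)) (fun τ τ' => ?_) (fun ζ hζ => ?_)
  · obtain ⟨j, hj⟩ := hg τ τ'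
    have hcop : Nat.Coprime (p - 1) (finrank ℚ k) := by
      rw [Nat.coprime_comm, Nat.Prime.coprime_iff_not_dvd hn]
      exact hnp
    obtain ⟨m, -, hm⟩ := Nat.exists_mul_mod_eq_one_of_coprime hcop hn.one_lt
    refine ⟨m * j, fun x => ?_⟩
    rw [iter_pow, iter_eq, mod_n g hg τ (b := j), ← iter_eq, hj x]
    rw [← mul_assoc, Nat.mul_mod, hm, one_mul, Nat.mod_mod]
  · have := root hpp g ζ hζ
    rw [← this]
    conv_lhs => rw [this]
    have h := iter_pow g (p - 1) 1 ζ
    rw [mul_one] at h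
    exact h

/-- **infinitely many nonsplit primes congruent to `1` modulo `p`** -/
theorem t_INF : Pool.Agent.N848.OL.S_INF := inf_of Pool.Agent.Y419.LC.prd Pool.Agent.Y287.LC.chb

end Pool.Agent.N18.OL
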